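import Pool.Agent.Helper4.CI.Goals
import Pool.Agent.Helper75.Mono.CellVol

/-! # Packet V4 (2484): Euler characteristics through simplices -/

namespace Mono.CI.V4

open Finset Pointwise Mono Mono.CI Mono.S4

variable {N k : ℕ}

theorem ind_inj {c d : Option (Fin k)} (h : ind c = ind d) : c = d := by
  cases c with
  | none =>
    cases d with
    | none => rfl
    | some j =>
      have := congrFun h j
      simp [ind] at this
  | some i =>
    have h1 := congrFun h i
    simp only [ind, if_true] at h1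
    by_contra hne
    rw [if_neg (fun h => hne h.symm)] at h1
    exact one_ne_zero h1

@[simp] theorem lift_natAdd (c : Option (Fin k)) (u : Fin N → ℤ) (j : Fin k) :
    lift c u (Fin.natAdd N j) = ind c j := by simp [lift]

@[simp] theorem lift_castAdd (c : Option (Fin k)) (u : Fin N → ℤ) (i : Fin N) :
    lift c u (Fin.castAdd k i) = u i := by simp [lift]

@[simp] theorem base_lift (c : Option (Fin k)) (u : Fin N → ℤ) : base (lift c u) = u := by
  funext i
  simp [base]

theorem mem_cols_of_lift {ρ : Finset (Fin (N + k) → ℤ)} {c : Option (Fin k)} {u : Fin N → ℤ}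
    (h : lift c u ∈ ρ) : c ∈ cols ρ := by
  simp only [cols, mem_filter, mem_univ, true_and]
  exact ⟨lift c u, h, fun j => lift_natAdd c u j⟩

theorem mem_cay {φ : Option (Fin k) → Finset (Fin N → ℤ)} {C : Finset (Option (Fin k))}
    {v : Fin (N + k) → ℤ} : v ∈ cay φ C ↔ ∃ c ∈ C, ∃ u ∈ φ c, lift c u = v := by
  simp [cay]

theorem color_eq {c d : Option (Fin k)} {u : Fin N → ℤ}
    (h : ∀ j, lift c u (Fin.natAdd N j) = ind d j) : c = d := by
  apply ind_inj
  funext j
  rw [← h j, lift_natAdd]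

theorem pr_lift (K : Finset (Fin N)) (c : Option (Fin k)) (u : Fin N → ℤ) :
    pr (Kh k K) (lift c u) = lift c (pr K u) := by
  funext i
  refine Fin.addCases (fun i => ?_) (fun j => ?_) i
  · simp only [pr, lift_castAdd, Kh, mem_image]
    by_cases hi : i ∈ K
    · rw [if_pos ⟨i, hi, rfl⟩, if_pos hi]
    · rw [if_neg, if_neg hi]
      rintro ⟨i', hi', he⟩
      have : i' = i := by
        have := congrArg Fin.val he
        exact Fin.ext (by simpa using this)
      exact hi (this ▸ hi')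
  · simp only [pr, lift_natAdd, Kh, mem_image]
    rw [if_neg]
    rintro ⟨i', hi', he⟩
    have := congrArg Fin.val he
    simp at this
    have h2 := i'.2
    omega

/-- The elements of a set contained in a Cayley configuration are lifts. -/
theorem lifts_of_sub {φ : Option (Fin k) → Finset (Fin N → ℤ)} {C : Finset (Option (Fin k))}
    {σ : Finset (Fin (N + k) → ℤ)} (h : σ ⊆ cay φ C) (K : Finset (Fin N)) :
    ∀ v ∈ projS (Kh k K) σ, ∃ c u, v = lift c u := by
  intro v hv
  rw [projS_eq, mem_image] at hv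
  obtain ⟨w, hw, rfl⟩ := hv
  obtain ⟨c, _, u, _, rfl⟩ := mem_cay.1 (h hw)
  exact ⟨c, pr K u, pr_lift K c u⟩

theorem cols_projS {φ : Option (Fin k) → Finset (Fin N → ℤ)} {C : Finset (Option (Fin k))}
    {σ : Finset (Fin (N + k) → ℤ)} (h : σ ⊆ cay φ C) (K : Finset (Fin N)) :
    cols (projS (Kh k K) σ) = cols σ := by
  ext c
  simp only [cols, mem_filter, mem_univ, true_and, projS_eq, mem_image]
  constructor
  · rintro ⟨_, ⟨w, hw, rfl⟩, h1⟩
    obtain ⟨d, _, u, _, rfl⟩ := mem_cay.1 (h hw)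
    rw [pr_lift] at h1
    have : d = c := color_eq h1
    subst this
    exact ⟨_, hw, fun j => lift_natAdd _ _ j⟩
  · rintro ⟨w, hw, h1⟩
    obtain ⟨d, _, u, _, rfl⟩ := mem_cay.1 (h hw)
    have : d = c := color_eq h1
    subst this
    exact ⟨_, ⟨_, hw, rfl⟩, fun j => by rw [pr_lift, lift_natAdd]⟩

theorem dimC_coll_le {φ : Option (Fin k) → Finset (Fin N → ℤ)} {C : Finset (Option (Fin k))}
    {σ : Finset (Fin (N + k) → ℤ)} (h : σ ⊆ cay φ C) (K : Finset (Fin N)) :
    dimC (coll (projS (Kh k K) σ)) ≤ dimC (prC K φ) := by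
  unfold dimC
  refine Submodule.finrank_mono (Submodule.span_mono ?_)
  have key : ∀ c, ∀ u ∈ coll (projS (Kh k K) σ) c, u ∈ prC K φ c := by
    intro c u hu
    simp only [coll, mem_image, mem_filter, projS_eq] at hu
    obtain ⟨_, ⟨⟨w, hw, rfl⟩, h1⟩, rfl⟩ := hu
    obtain ⟨d, _, u, hu, rfl⟩ := mem_cay.1 (h hw)
    rw [pr_lift] at h1 ⊢
    have : d = c := color_eq h1
    subst this
    rw [base_lift]
    exact mem_image_of_mem _ hu
  rintro x ⟨c, u, hu, v, hv, rfl⟩
  exact ⟨c, u, key c u hu, v, key c v hv, rfl⟩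

theorem cols_sub {φ : Option (Fin k) → Finset (Fin N → ℤ)} {C : Finset (Option (Fin k))}
    {σ : Finset (Fin (N + k) → ℤ)} (h : σ ⊆ cay φ C) : cols σ ⊆ C := by
  intro c hc
  simp only [cols, mem_filter, mem_univ, true_and] at hc
  obtain ⟨w, hw, h1⟩ := hc
  obtain ⟨d, hd, u, _, rfl⟩ := mem_cay.1 (h hw)
  have : d = c := color_eq h1
  subst this
  exact hd

theorem sub_cay_cols {φ : Option (Fin k) → Finset (Fin N → ℤ)}
    {σ : Finset (Fin (N + k) → ℤ)} (h : σ ⊆ cay φ univ) : σ ⊆ cay φ (cols σ) := by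
  intro w hw
  obtain ⟨d, _, u, hu, rfl⟩ := mem_cay.1 (h hw)
  exact mem_cay.2 ⟨d, mem_cols_of_lift hw, u, hu, rfl⟩

theorem cay_mono {φ : Option (Fin k) → Finset (Fin N → ℤ)} {C D : Finset (Option (Fin k))}
    (h : C ⊆ D) : cay φ C ⊆ cay φ D := biUnion_subset_biUnion_of_subset_left _ h

/-- The key equivalence. -/
theorem key (hD : CardColl) {φ : Option (Fin k) → Finset (Fin N → ℤ)}
    {C : Finset (Option (Fin k))} {Z ρ : Finset (Fin (N + k) → ℤ)} {K : Finset (Fin N)}
    (hi : Indep ρ) (hρ : ρ ∩ Z = eK (Kh k K)) :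
    (ρ \ Z ⊆ cay φ C ∧ (ρ \ Z).card = dimC (prC K φ) + C.card) ↔
    (ρ \ Z ⊆ cay φ univ ∧ (ρ \ Z).card = dimC (prC K φ) + (cols (ρ \ Z)).card ∧
      cols (ρ \ Z) = C) := by
  constructor
  · rintro ⟨h1, h2⟩
    have h3 : cols (ρ \ Z) ⊆ C := cols_sub h1
    have h4 := hD N k (projS (Kh k K) (ρ \ Z)) (proj_indep' hi hρ) (lifts_of_sub h1 K)
    rw [proj_card hi hρ, cols_projS h1] at h4
    have h5 := dimC_coll_le h1 K
    have h6 : cols (ρ \ Z) = C := Finset.eq_of_subset_of_card_le h3 (by omega)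
    exact ⟨h1.trans (cay_mono (subset_univ _)), by rw [h6]; exact h2, h6⟩
  · rintro ⟨h1, h2, rfl⟩
    exact ⟨sub_cay_cols h1, h2⟩

end V4

open Finset V4 in
/-- V4. -/
theorem chi1Sum (h3 : CellVolC) (hD : CardColl) : Chi1Sum := by
  classical
  intro N k A b L b' Z Φ' Φ hT K φ hφ
  set H := Hset A Z with hH
  set S := Φ.faces.filter (fun ρ => ρ ∩ Z = eK (Kh k K) ∧ ρ \ Z ⊆ cay φ univ ∧
    none ∈ cols (ρ \ Z) ∧ (ρ \ Z).card = dimC (prC K φ) + (cols (ρ \ Z)).card) with hS
  -- the colours present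
  let col : Finset (Fin (N + k) → ℤ) → Finset (Fin k) := fun ρ =>
    univ.filter (fun j => some j ∈ cols (ρ \ Z))
  have hcol : ∀ ρ, none ∈ cols (ρ \ Z) → ∀ J : Finset (Fin k),
      (cols (ρ \ Z) = insert none (J.image some) ↔ col ρ = J) := by
    intro ρ hn J
    constructor
    · intro h
      ext j
      simp [col, h]
    · rintro rfl
      ext c
      cases c with
      | none => simp [hn]
      | some j => simp [col]
  have hterm : ∀ J : Finset (Fin k), volC (prC K φ) (insert none (J.image some)) =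
      ∑ ρ ∈ S.filter (fun ρ => col ρ = J), (volZ H ρ : ℤ) := by
    intro J
    rw [h3 N k A b L b' Z Φ' Φ hT K φ hφ (insert none (J.image some))]
    refine Finset.sum_congr ?_ (fun _ _ => rfl)
    ext ρ
    simp only [hS, mem_filter]
    constructor
    · rintro ⟨hf, h1, h2, h4⟩
      have hi := Fan.IsFace.indep Φ (Φ.mem_faces.1 hf)
      obtain ⟨g1, g2, g3⟩ := (key hD hi h1).1 ⟨h2, h4⟩
      have hn : none ∈ cols (ρ \ Z) := by rw [g3]; exact mem_insert_self _ _
      exact ⟨⟨hf, h1, g1, hn, g2⟩, (hcol ρ hn J).1 g3⟩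
    · rintro ⟨⟨hf, h1, g1, hn, g2⟩, g3⟩
      have hi := Fan.IsFace.indep Φ (Φ.mem_faces.1 hf)
      obtain ⟨h2, h4⟩ := (key hD hi h1).2 ⟨g1, g2, (hcol ρ hn J).2 g3⟩
      exact ⟨hf, h1, h2, h4⟩
  have hcard : ∀ ρ ∈ S, (col ρ).card + 1 = (cols (ρ \ Z)).card := by
    intro ρ hρ
    have hn : none ∈ cols (ρ \ Z) := (mem_filter.1 hρ).2.2.2.1
    have h := (hcol ρ hn (col ρ)).2 rfl
    rw [h, card_insert_of_notMem (by simp), card_image_of_injective _ (Option.some_injective _)]
  unfold chi1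
  rw [Finset.mul_sum]
  have h5 : ∀ J : Finset (Fin k), (-1 : ℤ) ^ dimC (prC K φ) *
      ((-1) ^ J.card * volC (prC K φ) (insert none (J.image some))) =
      ∑ ρ ∈ S.filter (fun ρ => col ρ = J), (-1) ^ ((ρ \ Z).card - 1) * (volZ H ρ : ℤ) := by
    intro J
    rw [hterm J, Finset.mul_sum, Finset.mul_sum]
    refine Finset.sum_congr rfl fun ρ hρ => ?_
    obtain ⟨hρS, hJ⟩ := mem_filter.1 hρ
    have hc := hcard ρ hρS
    have h6 := (mem_filter.1 hρS).2.2.2.2
    have h7 : (ρ \ Z).card - 1 = dimC (prC K φ) + J.card := by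
      rw [hJ] at hc
      omega
    rw [h7, pow_add]
    ring
  rw [Finset.sum_congr rfl fun J _ => h5 J]
  exact Finset.sum_fiberwise_of_maps_to (fun ρ _ => mem_univ (col ρ)) _

end Mono.CI
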